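import Pool.Agent.N860.TS.Fin

/-!
# MP_61a569_nt: the question in the random models of Cramér and Granville

The question asks for every `n ≥ 32` for some `k`, `1 ≤ k < n - 2`, such that `q = φ(k) + φ(n - k) / 2 + 1`,
`p_q - q - 1` and `p_q - q + 1` are all prime, `p_m` being the `m`-th prime.  Here the primes are replaced by a random
set: the integers `j` are chosen independently, the large `j` coprime to a fixed `Q` with probability `θ / log j`, the
other large `j` not at all (Cramér: `Q = θ = 1`; Granville: `Q` a product of primes, `θ = Q / φ(Q)`), and `p_m` is the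
`m`-th chosen number.  Almost surely every large `n` has at least `n ^ (1/500)` admissible `k`, with different `q`.

The proof has two parts.  (1) For EVERY large `n` the numbers `q(n, k)` take at least `n ^ (1/100)` values which are `1`
modulo `Q`: more than half of the integers below `n` have a prime factor larger than `n ^ 0.51`, so for a positive
proportion of the `k < n` both `k` and `n - k` have one, and then `q(n, k)` and the two cofactors determine `k` (up to the
exchange of `k` and `n - k`); `Q` divides `φ(k)` for almost all `k`.  (2) The choices are revealed in increasing order.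
When the element number `q - J`, `J = (log n) ^ 4`, has been found, all choices near `p_q - q` are known; there is a
`u` with `u - 1`, `u + 1` chosen in each interval of length `K (log n) ^ 3`, and the probability that `p_q = q + u` is
not small, by a local estimate for sums of independent variables.  The values `q` are explored one after the other.

Co-authors of the library files: helpers 803, 402, 615, 539, 494, 559, 470, 655, 134, 348, 324, 551, 99, 75, 136.
-/

set_option autoImplicit false

open MeasureTheory Filter
open scoped Topology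

namespace Pool.Agent.Results.MP_61a569_nt.CramerModels

/-- `q n k = φ(k) + φ(n - k) / 2 + 1` -/
def q (n k : ℕ) : ℕ := Nat.totient k + Nat.totient (n - k) / 2 + 1

/-- The `m`-th element of `S`; `p S 1` is the least one. -/
noncomputable def p (S : Set ℕ) (m : ℕ) : ℕ := Nat.nth (· ∈ S) (m - 1)

/-- `k` is admissible for `n`, with the elements of `S` in place of the primes: `1 ≤ k < n - 2` and
`q = q n k`, `p_q - q - 1` and `p_q - q + 1` belong to `S` (and `p_q > q`, so the subtractions are true subtractions). -/
def Admissible (S : Set ℕ) (n k : ℕ) : Prop :=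
  1 ≤ k ∧ k < n - 2 ∧ q n k ∈ S ∧ q n k < p S (q n k) ∧ p S (q n k) - q n k - 1 ∈ S ∧ p S (q n k) - q n k + 1 ∈ S

/-- Let the events `A j` (`j` is chosen) be independent, let the probability of `A j` be `θ / log j` for all large `j`
coprime to `Q`, and let no large `j` with a common factor with `Q` be chosen.  Then almost surely for all large `n` there
are at least `n ^ (1 / 500)` admissible `k` with pairwise different `q n k`. -/
theorem result {Ω : Type} [MeasurableSpace Ω] (μ : Measure Ω) [IsProbabilityMeasure μ] (A : ℕ → Set Ω)
    (hA : ∀ j, MeasurableSet (A j)) (hI : ProbabilityTheory.iIndepSet A μ) (Q : ℕ) (hQ : 1 ≤ Q) (θ : ℝ) (hθ : 0 < θ)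
    (j₀ : ℕ) (h1 : ∀ j, j₀ ≤ j → Nat.Coprime j Q → μ.real (A j) = θ / Real.log j)
    (h0 : ∀ j, j₀ ≤ j → ¬ Nat.Coprime j Q → A j = ∅) :
    ∀ᵐ ω ∂μ, ∀ᶠ n : ℕ in atTop, ∃ T : Finset ℕ, (n : ℝ) ^ (1 / 500 : ℝ) ≤ T.card ∧
      (∀ k ∈ T, Admissible {j | ω ∈ A j} n k) ∧ Set.InjOn (q n) T := by
  filter_upwards [Pool.Agent.N860.TS.final Ω μ A Q j₀ θ hQ hθ ⟨hA, hI, h1, h0⟩] with ω hω
  filter_upwards [hω] with n hn
  obtain ⟨T, hT1, hT2, hT3⟩ := hn
  refine ⟨T, hT1, ?_, hT3⟩
  intro k hk
  obtain ⟨hk1, hk2, hq, u, hu1, hu2, hu3, hu4, hu5⟩ := hT2 k hk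
  have hp : p {j | ω ∈ A j} (q n k) = u + q n k := Pool.Agent.N860.TS.nth_of_cnt _ _ _ hu4 hu5
  refine ⟨hk1, by omega, hq, ?_, ?_, ?_⟩
  · rw [hp]; omega
  · rw [hp, Nat.add_sub_cancel]
    exact hu2
  · rw [hp, Nat.add_sub_cancel]
    exact hu3

end Pool.Agent.Results.MP_61a569_nt.CramerModels
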