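import Pool.Agent.N798.W.Fin
import Pool.Agent.N798.H.All
import Pool.Agent.N136.HW.MW
import Pool.Agent.N868.HW.PP
import Pool.Agent.N189.HW.GP

/-!
# Metric form of the totient problem for a positive proportion of `n`

`q(n,k) = φ(k) + φ(n-k)/2 + 1`.  For almost every `(α, β) ∈ (0, ∞)^2`, all integers `b, d` and a positive proportion of
the `n` there are at least `n / (log n)^17` numbers `k`, `1 ≤ k < n - 2`, for which `q = q(n,k)`, `⌊α (p_q - q)⌋ + b`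
and `⌊β (p_q - q)⌋ + d` are primes.

Behind this is a general theorem: let `u_1, …, u_t` be ARBITRARY increasing sequences of positive integers with
`u_i(j) ≤ j (log j)^C`, and let `W_n ⊆ [1, n]` be ARBITRARY sets.  For almost every `(α_1, …, α_t) ∈ (0, ∞)^t` and all
integers `b_i`, outside a set of `n` with `o(N / (log N)^K)` elements up to `N`, all the numbers
`⌊α_i u_i(j)⌋ + b_i` are primes for the expected number of the `j ∈ W_n`.
-/

set_option autoImplicit false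

namespace Pool.Agent.Results.MP_61a569_nt.MetricTotientSums

open Finset MeasureTheory Filter Topology

/-- `u 1 < u 2 < …` are positive integers and `u j ≤ j (log j)^C` for large `j`, for some `C` -/
def Slow (u : ℕ → ℕ) : Prop := (∀ m n, 1 ≤ m → m < n → u m < u n) ∧ 1 ≤ u 1 ∧
  ∃ C n0 : ℕ, ∀ n, n0 ≤ n → (u n : ℝ) ≤ n * (Real.log n) ^ C

open Classical in
/-- `E` has `o(N / (log N)^K)` elements up to `N`, for every `K` -/
def Thin (E : ℕ → Prop) : Prop := ∀ K : ℕ,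
  Tendsto (fun N : ℕ => (#((Icc 1 N).filter E) : ℝ) * (Real.log N) ^ K / N) atTop (𝓝 0)

/-- the number of `j ∈ W` for which all the `⌊α_i u_i(j)⌋ + b_i` are primes -/
noncomputable def count {t : ℕ} (u : Fin t → ℕ → ℕ) (W : Finset ℕ) (b : Fin t → ℤ) (α : Fin t → ℝ) : ℕ :=
  #(W.filter fun j : ℕ => ∀ i, (⌊α i * (u i j : ℝ)⌋ + b i).toNat.Prime)

/-- the expected number, over the `j ∈ W`, `j > √n` -/
noncomputable def expected {t : ℕ} (u : Fin t → ℕ → ℕ) (W : Finset ℕ) (α : Fin t → ℝ) (n : ℕ) : ℝ :=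
  ∑ j ∈ W.filter (fun j => Nat.sqrt n < j), ∏ i, 1 / Real.log (α i * u i j)

/-- the `m`-th prime, `p 1 = 2` -/
noncomputable def p (m : ℕ) : ℕ := Nat.nth Nat.Prime (m - 1)

/-- `q n k = φ(k) + φ(n - k) / 2 + 1` -/
def q (n k : ℕ) : ℕ := Nat.totient k + Nat.totient (n - k) / 2 + 1

/-- the set of the primes of the form `q n k`, `1 ≤ k < n - 2` -/
def Q (n : ℕ) : Finset ℕ := ((Ico 1 (n - 2)).image (q n)).filter Nat.Prime

/-- `⌊α (p_r - r)⌋ + b` and `⌊β (p_r - r)⌋ + d` are primes -/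
def Both (α β : ℝ) (b d : ℤ) (r : ℕ) : Prop :=
  (⌊α * ((p r - r : ℕ) : ℝ)⌋ + b).toNat.Prime ∧ (⌊β * ((p r - r : ℕ) : ℝ)⌋ + d).toNat.Prime

open Classical in
/-- the number of the primes `r` of the form `q n k` with `Both` -/
noncomputable def good (α β : ℝ) (b d : ℤ) (n : ℕ) : ℕ := #((Q n).filter (Both α β b d))

open Classical in
/-- the number of the `k`, `1 ≤ k < n - 2`, for which `r = q n k` is a prime with `Both` -/
noncomputable def adm (α β : ℝ) (b d : ℤ) (n : ℕ) : ℕ :=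
  #((Ico 1 (n - 2)).filter fun k => (q n k).Prime ∧ Both α β b d (q n k))

lemma Q_le {n r : ℕ} (h : r ∈ Q n) : 2 ≤ r ∧ r ≤ n + 1 := by
  unfold Q at h
  rw [mem_filter, mem_image] at h
  obtain ⟨⟨k, hk, rfl⟩, hp⟩ := h
  rw [mem_Ico] at hk
  refine ⟨hp.two_le, ?_⟩
  unfold q
  have h1 := Nat.totient_le k
  have h2 := Nat.totient_le (n - k)
  omega

lemma good_le_adm (α β : ℝ) (b d : ℤ) (n : ℕ) : good α β b d n ≤ adm α β b d n := by
  classical
  unfold good adm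
  have h : (Q n).filter (Both α β b d) ⊆
      ((Ico 1 (n - 2)).filter fun k => (q n k).Prime ∧ Both α β b d (q n k)).image (q n) := by
    intro r hr
    rw [mem_filter] at hr
    obtain ⟨h1, h2⟩ := hr
    unfold Q at h1
    rw [mem_filter, mem_image] at h1
    obtain ⟨⟨k, hk, rfl⟩, hp⟩ := h1
    exact mem_image.2 ⟨k, mem_filter.2 ⟨hk, hp, h2⟩, rfl⟩
  exact (card_le_card h).trans card_image_le

lemma general (hsd : Pool.Agent.N798.HS.S_SD) (hprd : Pool.Agent.N798.HS.S_PRD) (hex : Pool.Agent.N798.HS.S_EX)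
    (hmw : Pool.Agent.N798.HW.S_MW) (t : ℕ) (u : Fin t → ℕ → ℕ) (hu : ∀ i, Slow (u i)) (W : ℕ → Finset ℕ)
    (hW : ∀ n, W n ⊆ Icc 1 n) :
    ∀ᵐ α : Fin t → ℝ, (∀ i, 0 < α i) → ∀ b : Fin t → ℤ,
      (∀ L : ℕ, Thin fun n => (n : ℝ) / (Real.log n) ^ L <
        |(count u (W n) b α : ℝ) - expected u (W n) α n|) ∧
      (∀ ε : ℝ, 0 < ε → ∀ C : ℕ, Thin fun n => (n : ℝ) / (Real.log n) ^ C ≤ #(W n) ∧
        ε < |(count u (W n) b α : ℝ) / (#(W n) / (Real.log n) ^ t) - 1|) :=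
  Pool.Agent.N798.HW.finW hsd hprd hex hmw u hu W hW

lemma pairs (hsd : Pool.Agent.N798.HS.S_SD) (hprd : Pool.Agent.N798.HS.S_PRD) (hex : Pool.Agent.N798.HS.S_EX)
    (hmw : Pool.Agent.N798.HW.S_MW) (hgp : Pool.Agent.N798.HW.S_GP) :
    ∀ᵐ α : Fin 2 → ℝ, (∀ i, 0 < α i) → ∀ b d : ℤ, ∀ ε : ℝ, 0 < ε → ∀ C : ℕ,
      Thin fun n => (n : ℝ) / (Real.log n) ^ C ≤ #(Q n) ∧
        ε < |(good (α 0) (α 1) b d n : ℝ) / (#(Q n) / (Real.log n) ^ 2) - 1| := by
  classical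
  have hW : ∀ n, (Q n).image (fun r => r - 1) ⊆ Icc 1 n := by
    intro n j hj
    rw [mem_image] at hj
    obtain ⟨r, hr, rfl⟩ := hj
    have := Q_le hr
    rw [mem_Icc]
    omega
  have h1 := general hsd hprd hex hmw 2 (fun _ m => Nat.nth Nat.Prime m - (m + 1)) (fun _ => hgp)
    (fun n => (Q n).image (fun r => r - 1)) hW
  filter_upwards [h1] with α hα hpos b d ε hε C
  have h2 := (hα hpos ![b, d]).2 ε hε C
  have hinj : ∀ n, Set.InjOn (fun r : ℕ => r - 1) (Q n : Set ℕ) := by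
    intro n x hx y hy hxy
    have h3 := Q_le (mem_coe.1 hx)
    have h4 := Q_le (mem_coe.1 hy)
    simp only at hxy
    omega
  have e1 : ∀ n, #((Q n).image (fun r => r - 1)) = #(Q n) := fun n => card_image_of_injOn (hinj n)
  have e2 : ∀ n, count (fun _ : Fin 2 => fun m => Nat.nth Nat.Prime m - (m + 1))
      ((Q n).image (fun r => r - 1)) ![b, d] α = good (α 0) (α 1) b d n := by
    intro n
    unfold count good
    rw [filter_image, card_image_of_injOn ((hinj n).mono (by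
      intro r hr
      exact mem_coe.2 (mem_filter.1 (mem_coe.1 hr)).1))]
    congr 1
    refine filter_congr fun r hr => ?_
    have h5 := Q_le hr
    have e3 : r - 1 + 1 = r := by omega
    unfold Both p
    simp only [Fin.forall_fin_two, e3]
    simp
  simp only [e1, e2] at h2
  exact h2

lemma proportion (hpp : Pool.Agent.N798.HW.S_PP)
    (h : ∀ᵐ α : Fin 2 → ℝ, (∀ i, 0 < α i) → ∀ b d : ℤ, ∀ ε : ℝ, 0 < ε → ∀ C : ℕ,
      Thin fun n => (n : ℝ) / (Real.log n) ^ C ≤ #(Q n) ∧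
        ε < |(good (α 0) (α 1) b d n : ℝ) / (#(Q n) / (Real.log n) ^ 2) - 1|) :
    ∃ c : ℝ, 0 < c ∧ ∀ᵐ α : Fin 2 → ℝ, (∀ i, 0 < α i) → ∀ b d : ℤ, ∀ᶠ x : ℕ in atTop,
      c * x ≤ #((Icc 32 x).filter fun n : ℕ => (n : ℝ) / (Real.log n) ^ 17 ≤ adm (α 0) (α 1) b d n) := by
  classical
  obtain ⟨c, hc, hx⟩ := hpp
  have hx' : ∀ᶠ x : ℕ in atTop,
      c * x ≤ (#((Icc 32 x).filter fun n : ℕ => (n : ℝ) / Real.log n ^ 14 ≤ (#(Q n) : ℝ)) : ℝ) := by
    filter_upwards [hx] with x hx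
    refine hx.trans (le_of_eq ?_)
    norm_cast
  refine ⟨c / 2, by positivity, ?_⟩
  filter_upwards [h] with α hα hpos b d
  have h1 := hα hpos b d (1 / 2) (by norm_num) 14 0
  have hlog : Tendsto (fun n : ℕ => Real.log (n : ℝ)) atTop atTop :=
    Real.tendsto_log_atTop.comp tendsto_natCast_atTop_atTop
  obtain ⟨n1, hn1⟩ := eventually_atTop.1 (hlog.eventually_ge_atTop 2)
  have h2 : ∀ n, n1 ≤ n → (n : ℝ) / (Real.log n) ^ 14 ≤ #(Q n) →
      ¬ ((n : ℝ) / (Real.log n) ^ 14 ≤ #(Q n) ∧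
        1 / 2 < |(good (α 0) (α 1) b d n : ℝ) / (#(Q n) / (Real.log n) ^ 2) - 1|) →
      (n : ℝ) / (Real.log n) ^ 17 ≤ adm (α 0) (α 1) b d n := by
    intro n hn hQ hno
    have hl := hn1 n hn
    have hl0 : 0 < Real.log (n : ℝ) := by linarith
    rcases Nat.eq_zero_or_pos n with hn0 | hn0
    · subst hn0
      simp at hl0
    have hn' : (0 : ℝ) < n := by exact_mod_cast hn0
    have hno' : |(good (α 0) (α 1) b d n : ℝ) / (#(Q n) / (Real.log n) ^ 2) - 1| ≤ 1 / 2 := by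
      by_contra h3
      exact hno ⟨hQ, not_le.1 h3⟩
    have h4 := (abs_le.1 hno').1
    have hQp : (0 : ℝ) < #(Q n) := lt_of_lt_of_le (by positivity) hQ
    have h5 : 1 / 2 ≤ (good (α 0) (α 1) b d n : ℝ) / (#(Q n) / (Real.log n) ^ 2) := by linarith
    rw [le_div_iff₀ (by positivity)] at h5
    have h6 : (good (α 0) (α 1) b d n : ℝ) ≤ adm (α 0) (α 1) b d n := by
      exact_mod_cast good_le_adm _ _ _ _ _
    refine le_trans ?_ (h5.trans h6)
    calc (n : ℝ) / (Real.log n) ^ 17 = 1 / Real.log n * ((n / (Real.log n) ^ 14) / (Real.log n) ^ 2) := by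
          field_simp
      _ ≤ 1 / 2 * ((n / (Real.log n) ^ 14) / (Real.log n) ^ 2) := by
          refine mul_le_mul_of_nonneg_right ?_ (by positivity)
          exact one_div_le_one_div_of_le (by norm_num) hl
      _ ≤ 1 / 2 * (#(Q n) / (Real.log n) ^ 2) := by
          refine mul_le_mul_of_nonneg_left ?_ (by norm_num)
          exact div_le_div_of_nonneg_right hQ (by positivity)
  have h3 := (Metric.tendsto_nhds.1 h1) (c / 4) (by positivity)
  filter_upwards [hx', h3, eventually_gt_atTop 0, tendsto_natCast_atTop_atTop.eventually_ge_atTop (4 * n1 / c)]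
    with x hx1 hx2 hx3 hx4
  have hx0 : (0 : ℝ) < x := by exact_mod_cast hx3
  rw [dist_zero_right, Real.norm_eq_abs, abs_of_nonneg (by positivity), pow_zero, mul_one, div_lt_iff₀ hx0] at hx2
  have hx5 : (n1 : ℝ) ≤ c / 4 * x := by
    rw [div_le_iff₀ hc] at hx4
    linarith
  have hcard : #((Icc 32 x).filter fun n : ℕ => (n : ℝ) / Real.log n ^ 14 ≤ (#(Q n) : ℝ)) ≤
      #((Icc 32 x).filter fun n : ℕ => (n : ℝ) / (Real.log n) ^ 17 ≤ adm (α 0) (α 1) b d n) +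
      (#((Icc 1 x).filter fun n : ℕ => (n : ℝ) / (Real.log n) ^ 14 ≤ #(Q n) ∧
        1 / 2 < |(good (α 0) (α 1) b d n : ℝ) / (#(Q n) / (Real.log n) ^ 2) - 1|) + n1) := by
    have hsub : ((Icc 32 x).filter fun n : ℕ => (n : ℝ) / Real.log n ^ 14 ≤ (#(Q n) : ℝ)) ⊆
        ((Icc 32 x).filter fun n : ℕ => (n : ℝ) / (Real.log n) ^ 17 ≤ adm (α 0) (α 1) b d n) ∪
        (((Icc 1 x).filter fun n : ℕ => (n : ℝ) / (Real.log n) ^ 14 ≤ #(Q n) ∧
        1 / 2 < |(good (α 0) (α 1) b d n : ℝ) / (#(Q n) / (Real.log n) ^ 2) - 1|) ∪ range n1) := by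
      intro n hn
      rw [mem_filter] at hn
      obtain ⟨hn2, hn3⟩ := hn
      rw [mem_union, mem_union, mem_filter, mem_filter, mem_range]
      by_cases h5 : n < n1
      · exact Or.inr (Or.inr h5)
      · by_cases h6 : ((n : ℝ) / (Real.log n) ^ 14 ≤ #(Q n) ∧
          1 / 2 < |(good (α 0) (α 1) b d n : ℝ) / (#(Q n) / (Real.log n) ^ 2) - 1|)
        · refine Or.inr (Or.inl ⟨?_, h6⟩)
          rw [mem_Icc] at hn2 ⊢
          omega
        · exact Or.inl ⟨hn2, h2 n (not_lt.1 h5) hn3 h6⟩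
    refine (card_le_card hsub).trans ((card_union_le _ _).trans ?_)
    refine add_le_add le_rfl ((card_union_le _ _).trans ?_)
    rw [card_range]
  have hcard' : (#((Icc 32 x).filter fun n : ℕ => (n : ℝ) / Real.log n ^ 14 ≤ (#(Q n) : ℝ)) : ℝ) ≤
      #((Icc 32 x).filter fun n : ℕ => (n : ℝ) / (Real.log n) ^ 17 ≤ adm (α 0) (α 1) b d n) +
      (#((Icc 1 x).filter fun n : ℕ => (n : ℝ) / (Real.log n) ^ 14 ≤ #(Q n) ∧
        1 / 2 < |(good (α 0) (α 1) b d n : ℝ) / (#(Q n) / (Real.log n) ^ 2) - 1|) + n1) := by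
    exact_mod_cast hcard
  linarith

/-- **Metric form of Q1 for a positive proportion of `n`, and the general theorem.** -/
theorem result :
    (∀ (t : ℕ) (u : Fin t → ℕ → ℕ), (∀ i, Slow (u i)) → ∀ W : ℕ → Finset ℕ, (∀ n, W n ⊆ Icc 1 n) →
      ∀ᵐ α : Fin t → ℝ, (∀ i, 0 < α i) → ∀ b : Fin t → ℤ,
        (∀ L : ℕ, Thin fun n => (n : ℝ) / (Real.log n) ^ L <
          |(count u (W n) b α : ℝ) - expected u (W n) α n|) ∧
        (∀ ε : ℝ, 0 < ε → ∀ C : ℕ, Thin fun n => (n : ℝ) / (Real.log n) ^ C ≤ #(W n) ∧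
          ε < |(count u (W n) b α : ℝ) / (#(W n) / (Real.log n) ^ t) - 1|)) ∧
    (∀ᵐ α : Fin 2 → ℝ, (∀ i, 0 < α i) → ∀ b d : ℤ, ∀ ε : ℝ, 0 < ε → ∀ C : ℕ,
      Thin fun n => (n : ℝ) / (Real.log n) ^ C ≤ #(Q n) ∧
        ε < |(good (α 0) (α 1) b d n : ℝ) / (#(Q n) / (Real.log n) ^ 2) - 1|) ∧
    (∃ c : ℝ, 0 < c ∧ ∀ᵐ α : Fin 2 → ℝ, (∀ i, 0 < α i) → ∀ b d : ℤ, ∀ᶠ x : ℕ in atTop,
      c * x ≤ #((Icc 32 x).filter fun n : ℕ => (n : ℝ) / (Real.log n) ^ 17 ≤ adm (α 0) (α 1) b d n)) := by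
  have hsd := Pool.Agent.N798.HS.sdP
  have hprd := Pool.Agent.N999.HS.prd
  have hex := Pool.Agent.N280.HS.ex
  have h2 := pairs hsd hprd hex Pool.Agent.N136.HW.mw Pool.Agent.N189.HW.gp
  exact ⟨general hsd hprd hex Pool.Agent.N136.HW.mw, h2, proportion Pool.Agent.N868.HW.pp h2⟩

end Pool.Agent.Results.MP_61a569_nt.MetricTotientSums
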